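import Pool.Agent.N508.CS.Tfr
import Pool.Agent.N508.CS.Afr
import Pool.Agent.N508.CS.Pst
import Pool.Agent.N508.CS.Ktr
import Pool.Agent.N508.CS.Kab
import Pool.Agent.N508.CS.Ell
import Pool.Agent.N508.CS.Kvc
import Pool.Agent.N508.CS.Rho

/-!
# Extensions by groups that act on trees with commensurable polycyclic stabilizers

`C` is any class of groups with the closure properties `ClosedE C` which contains the metabelian groups
and the groups `F ⋊ Z`, `F` a free group (`FbC`). All this is published for the class of the groups whose
wreath products with finite groups satisfy the K-theoretic (or the L-theoretic) Farrell-Jones conjecture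
with coefficients in additive categories (Wegner for solvable groups, Bestvina, Fujiwara and Wigglesworth
and Brück, Kielak and Wu for free-by-cyclic groups), and the groups `GL_m(Q)` are in this class
(Bartels, Lück, Reich and Rüping; Rüping). For torsion-free groups in this class all finitely generated
projective modules over the integral group ring are stably free (Bartels, Lück and Reich).

Let `N` be a normal subgroup of `G` with `G / N` in `C`, and let `N` act on a tree without inversions.
The action need not extend to an action of `G`. Suppose that

* the stabilizers `N_v` of the vertices are torsion-free, and those of adjacent vertices are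
  commensurable;
* for `g` in `G` the groups `g N_v g⁻¹` and `N_v` are commensurable;
* `N_v` is virtually polycyclic and all groups `GL_m(Q)` are in `C`; or, more generally, every group
  `K` with `N_v ≤ K ≤ G` which commensurates `N_v` has a homomorphism to a group in `C` such that each
  element of the kernel centralizes a subgroup of finite index of `N_v` (`EC`).

Then `G` is in `C`.

So all extensions `N ⋊ Z` and all extensions of torsion-free groups in the class by groups `N` that are
graphs of groups with vertex groups `Z^m` and edge groups of finite index (generalized Baumslag-Solitar
groups of rank `m`, for instance Leary-Minasyan groups) satisfy the conjecture: the commensurability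
class of the vertex groups is invariant under all automorphisms of `N` if `N` is not virtually
polycyclic. The automorphisms of `N` preserve no tree in general. Such
theorems were known for groups `G` which act on the tree (graphs of abelian groups: Gandini, Meinert and
Rüping; `CommensurableStabilizersOnTrees` for `MP_490288_al`).

Outline of the proof. Let `K` be the group of the elements of `N` which centralize a subgroup of finite
index of `N_v`; this does not depend on `v`, and `K` is normal in `G`. The commensurator of `N_v` acts on
the rational Malcev completion of a subgroup of `N_v`, so that `G / K` embeds in `G / N × GL_m(Q)` up to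
the closure properties, and it is in `C`. The vertex stabilizers of `K` are torsion-free with finite
conjugacy classes, so they are abelian. Conjugation with elements `g` of `G` maps an element of `K_v` to
an element a power of which fixes a vertex, so it fixes a vertex itself. By the theorem on compatible
series for `N = K` (`KernelsOnTrees` for `MP_28303a_al`) `G` is in `C`: the group `P` generated by the
vertex stabilizers of `K` has a free commutator subgroup, `K / P` is free, and `G` preserves `P`.
-/

set_option autoImplicit false

namespace Pool.Agent.Results.MP_551055_al.CommensuratedKernels

open Pool.Agent.Y110.FJ (ClosedE)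
open Pool.Agent.R684.FP (FbC)
open Pool.Agent.N508.CS

theorem result (C : ∀ (G : Type) [Group G], Prop) (hC : ClosedE C)
    (hM : ∀ (G : Type) [Group G], derivedSeries G 2 = ⊥ → C G) (hF : FbC C)
    {G V : Type} [Group G] (N : Subgroup G) [N.Normal] (hQ : C (G ⧸ N))
    [MulAction N V] (T : SimpleGraph V) (hT : T.IsTree)
    (hact : ∀ (g : N) (u v : V), T.Adj u v → T.Adj (g • u) (g • v))
    (hinv : ∀ (g : N) (u v : V), T.Adj u v → ¬ (g • u = v ∧ g • v = u))
    (htf : ∀ (v : V) (x : N), x • v = v → IsOfFinOrder x → x = 1)
    (hcom : ∀ u v : V, T.Adj u v → (Sv N u).relIndex (Sv N v) ≠ 0)
    (hG : ∀ (g : G) (v : V), ((Sv N v).map (MulAut.conj g).toMonoidHom).relIndex (Sv N v) ≠ 0)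
    (hE : ∀ v : V, EC C (Sv N v)) : C G :=
  t_kvc (t_kab (t_ktr t_tfr t_afr t_pst)) t_rho t_ell C hC hM hF G V N T hT hact hinv
    ⟨htf, hcom, hG⟩ hE hQ

end Pool.Agent.Results.MP_551055_al.CommensuratedKernels
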