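import Pool.Agent.N510.CT.Mod
import Pool.Agent.N510.CT.Dom

set_option autoImplicit false

/-!
# Presentations of projective modules at the norm `3 / √2`

Projective modules over the integral group ring of a torsion-free group which are presented by a
matrix of operator norm at most `3 / √2` (the bound included) are stably free; for every larger
bound all finitely presented modules over all integral group rings have presentations of such a
norm, even with coefficients `0`, `1`, `-1`.
-/

namespace Pool.Agent.Results.MP_551055_al.CriticalNormPresentations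

open TH57.Thr TH6.PF Pool.Agent.N510

/-- `P` is the cokernel of the right multiplication with `A` on row vectors. -/
def Presents {G : Type} [Group G] {m n : ℕ} (A : Matrix (Fin m) (Fin n) (MonoidAlgebra ℤ G))
    (P : Type) [AddCommGroup P] [Module (MonoidAlgebra ℤ G) P] : Prop :=
  Nonempty (P ≃ₗ[MonoidAlgebra ℤ G]
    ((Fin n → MonoidAlgebra ℤ G) ⧸ LinearMap.range A.vecMulLinear))

/-- `P` is stably free. -/
def StablyFree (G : Type) [Group G] (P : Type) [AddCommGroup P]
    [Module (MonoidAlgebra ℤ G) P] : Prop :=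
  ∃ k l : ℕ, Nonempty ((P × (Fin k → MonoidAlgebra ℤ G)) ≃ₗ[MonoidAlgebra ℤ G]
    (Fin l → MonoidAlgebra ℤ G))

/-- `NormLE A c` (from `Pool.Agent.TH57.Thr.Defs`): right multiplication by `A` on `ℓ²` has norm at
most `|c|`.

1. Let `G` be torsion-free, and let the projective `ℤG`-module `P` be presented by an integer matrix
   of norm at most `3 / √2`. Then `P` is stably free.
2. Let `c > 3 / √2`. For every group `G`, every finitely presented `ℤG`-module is presented by a
   matrix with coefficients `0`, `1`, `-1` whose norm, and also the norm of its support pattern, is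
   at most `c`. -/
theorem result :
    (∀ (G : Type) [Group G], (∀ g : G, IsOfFinOrder g → g = 1) →
      ∀ (P : Type) [AddCommGroup P] [Module (MonoidAlgebra ℤ G) P],
      Module.Projective (MonoidAlgebra ℤ G) P →
      ∀ (m n : ℕ) (A : Matrix (Fin m) (Fin n) (MonoidAlgebra ℤ G)), Presents A P →
      ∀ c : ℝ, 0 < c → c ^ 2 ≤ 9 / 2 → NormLE A c → StablyFree G P) ∧
    ∀ c : ℝ, 9 / 2 < c ^ 2 → ∀ (G : Type) [Group G] (P : Type) [AddCommGroup P]
      [Module (MonoidAlgebra ℤ G) P], Module.FinitePresentation (MonoidAlgebra ℤ G) P →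
      ∃ (m n : ℕ) (A : Matrix (Fin m) (Fin n) (MonoidAlgebra ℤ G)), Presents A P ∧
        (∀ i j g, (A i j).coeff g = 0 ∨ (A i j).coeff g = 1 ∨ (A i j).coeff g = -1) ∧
        NormLE A c ∧ NormLE (pat A) c := by
  refine ⟨?_, ?_⟩
  · intro G _ htf P _ _ hP m n A ⟨e⟩ c hc0 hc hA
    obtain ⟨Y, hY⟩ := regular_of_projective A P hP e
    have htf' : ∀ g : G, ∀ k : ℕ, 0 < k → g ^ k = 1 → g = 1 := fun g k hk h =>
      htf g (isOfFinOrder_iff_pow_eq_one.2 ⟨k, hk, h⟩)
    exact free_of_SFC A (CT.SFC_small2 htf' A Y hY c hc0 hc hA) P e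
  · intro c hc G _ P _ _ hP
    obtain ⟨m, n, A, h1, h2, h3⟩ := CT.sthin_pres CT.gens_int P hP c hc
    refine ⟨m, n, A, h3, fun i j g => ?_, CT.normLE_of_thin A h1 c h2, h2⟩
    by_cases h : (A i j).coeff g = 0
    · exact Or.inl h
    · exact Or.inr (h1 i j g h)

end Pool.Agent.Results.MP_551055_al.CriticalNormPresentations
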