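import Pool.Agent.N632.CN.S

/-!
Positive definite hermitian forms over integral group rings: cancellation, and criteria for the
freeness and the stable freeness of projective modules.

(1) Let `G` be any group. Positive definite hermitian forms on `ℤG`-modules can be cancelled: if
`φ ⊥ ψ ≅ φ' ⊥ ψ'` and `ψ ≅ ψ'`, on a finitely generated module, then `φ ≅ φ'`.

(2) Let `G` be torsion-free, `M` a finitely generated projective `ℤG`-module.
(a) For every positive definite form on `M` its finite part, generated by the orthogonal summands of
finite rank of the lattice `M`, is free, with a basis with integral Gram matrix, and an orthogonal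
direct summand of `M`; all isometries of `M` are monomial on it.
(b) The form is extended from `ℤ` if and only if the finite part is `M`; if the orthogonal sum of `φ`
and of any positive definite form is extended from `ℤ`, then `φ` is extended from `ℤ`.
(c) `M` is free if and only if it has a positive definite form whose finite part is `M`, and stably
free if and only if `M ⊕ (ℤG)^n` has such a form for some `n`.

Idea of the proof. (1) An indecomposable orthogonal summand of a lattice with `G`-action, of any rank,
lies in a given orthogonal summand or is orthogonal to it (Eichler and Kneser). So for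
indecomposable `ψ` an isometry `(a, c; b, d)` has `d = 0` or `b = c = 0`, and `a + c b` is an
isometry `φ ≅ φ'`. The general case follows by induction. (2) uses the theorem on the finite part of
the starting library.
-/

set_option autoImplicit false

namespace Pool.Agent.Results.MP_551055_al.DefiniteForms

open Pool.Agent.Y75.SV Pool.Agent.Y75.EK Pool.Agent.N632.CN

theorem result :
    (∀ (G : Type) [Group G], Cancels G) ∧
    (∀ (G : Type) [Group G], (∀ (g : G) (n : ℕ), n ≠ 0 → g ^ n = 1 → g = 1) →
      ∀ (M : Type) [AddCommGroup M] [Module (MonoidAlgebra ℤ G) M]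
        [Module.Finite (MonoidAlgebra ℤ G) M] [Module.Projective (MonoidAlgebra ℤ G) M],
        (∀ φ : HermForm G M, φ.Pos →
          FreeFinPart φ ∧ (φ.ExtendedFromInt ↔ φ.finPart = ⊤) ∧ SummandExtended φ) ∧
        (Module.Free (MonoidAlgebra ℤ G) M ↔ ∃ φ : HermForm G M, φ.Pos ∧ φ.finPart = ⊤) ∧
        (StablyFree G M ↔ ∃ (n : ℕ) (φ : HermForm G (M × (Fin n → MonoidAlgebra ℤ G))),
          φ.Pos ∧ φ.finPart = ⊤)) := by
  refine ⟨?_, ?_⟩
  · intro G _ M M' N N' _ _ _ _ _ _ _ _ _ φ φ' ψ ψ' hφ hφ' hψ h h'
    exact cancellation hφ hφ' hψ h h'
  · intro G _ hG M _ _ _ _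
    refine ⟨fun φ hφ => ⟨?_, ⟨finPart_of_extended φ, extended_of_finPart hG φ hφ⟩, ?_⟩,
      free_iff hG, stablyFree_iff hG⟩
    · obtain ⟨k, b, A, h1, _, h3, h4, _⟩ := main_fin hG φ hφ
      exact ⟨k, b, A, h1, h3, h4⟩
    · intro N _ _ ψ hψ h
      exact extended_summand hG hφ hψ h

end Pool.Agent.Results.MP_551055_al.DefiniteForms
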