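import Pool.Agent.N508.CS.Tfr
import Pool.Agent.N508.CS.Trv
import Pool.Agent.N508.CS.Frp
import Pool.Agent.N508.CS.Eak
import Pool.Agent.N508.CS.Eau
import Pool.Agent.N508.CS.Kqd
import Pool.Agent.N508.CS.KdmB
import Pool.Agent.N508.CS.Kde

/-!
# Extensions whose kernels act on trees, with edge groups detected elementwise

`C` is any class of groups with the closure properties `ClosedE C` which contains the metabelian groups
and the groups `F ⋊ Z`, `F` a free group (`FbC`). All this is published for the class of the groups whose
wreath products with finite groups satisfy the K-theoretic (or the L-theoretic) Farrell-Jones conjecture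
with coefficients in additive categories (Wegner for solvable groups, Bestvina, Fujiwara and Wigglesworth
and Brück, Kielak and Wu for free-by-cyclic groups). For torsion-free groups in this class all finitely
generated projective modules over the integral group ring are stably free (Bartels, Lück and Reich).

Let `N` be a normal subgroup of `G` with `G / N` in `C`, and let `N` act on a tree `T` without
inversions, with finitely many orbits of edges. The action need not extend to an action of `G`, but `G`
permutes the stabilizers `N_v` of the vertices, and the groups `N_v⟨g⟩` are in `C` for `g` in `G` with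
`g N_v g⁻¹ = N_v`. Let the edge stabilizers be torsion-free and virtually polycyclic, or more generally
torsion-free with a bound on the length of the descending chains of subgroups `L₀ ≥ L₁ ≥ ...` with
elements `xᵢ` in `Lᵢ` no positive powers of which are in `Lᵢ₊₁` (`FRP`).

Suppose that for all `g` in `G`, all edges `uv` and all `x ≠ 1` in `N_u ∩ N_v` there is a homomorphism
`f` (which may depend on `x`) from `N⟨g⟩` to a group in `C` such that no power `x^m`, `m > 0`, in the
kernel of `f` is in the commutator subgroup of `N_u ∩ ker f`. (It suffices that `f x` has infinite order.)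
Then `G` is in `C`.

The case of trivial edge stabilizers, where `N` is a free product, is `FreeProductExtensions` (for
`MP_490288_al`). The case where `G` acts on the tree is `DetectedEdgeGroups` (for `MP_2a547c_gt`). For
instance let `N` be residually torsion-free nilpotent and the fundamental group of a finite graph of
groups with virtually polycyclic edge groups, and let all automorphisms of `N` permute the conjugacy
classes of the vertex groups; then `N⟨g⟩ / √γ_i(N)` is polycyclic-by-cyclic if `N` is finitely generated,
and the theorem says that all `N ⋊ Z` are in `C` if the groups `N_v⟨g⟩` are.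

Outline of the proof. As there are finitely many orbits of edges, and by the chain condition, one can
take the same homomorphism `f` from `N⟨g⟩` for all `x`. Let `M` be the intersection of `N` and the kernel
of `f`, `Y` the group generated by the stabilizers `M_v`, and `D` the commutator subgroup of `Y`. These
groups are normal in `N⟨g⟩`. The group `M / Y` is free and `Y / D` is abelian, so that `N⟨g⟩ / D` is in
`C`. As the edge groups of `M` embed in the abelianizations of the `M_v`, these embed in that of `Y`,
and the edge stabilizers of `D` are trivial. So `D` is an extension, with a free quotient, of a free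
product whose factors are permuted by `N⟨g⟩` up to conjugation.
-/

set_option autoImplicit false

namespace Pool.Agent.Results.MP_551055_al.ElementwiseDetectedKernels

open Pool.Agent.Y110.FJ (ClosedE)
open Pool.Agent.R684.FP (FbC)
open Pool.Agent.N508.CS

theorem result (C : ∀ (G : Type) [Group G], Prop) (hC : ClosedE C)
    (hM : ∀ (G : Type) [Group G], derivedSeries G 2 = ⊥ → C G) (hF : FbC C)
    {G V : Type} [Group G] (N : Subgroup G) [N.Normal] (hQ : C (G ⧸ N))
    [MulAction N V] (T : SimpleGraph V) (hT : T.IsTree)
    (hact : ∀ (g : N) (u v : V), T.Adj u v → T.Adj (g • u) (g • v))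
    (hinv : ∀ (g : N) (u v : V), T.Adj u v → ¬ (g • u = v ∧ g • v = u))
    (hfin : ∃ E : Finset (V × V), ∀ u v : V, T.Adj u v → ∃ n : N, (n • u, n • v) ∈ E)
    (hperm : ∀ (g : G) (v : V), ∃ w : V, ∀ x y : N, (y : G) = g * (x : G) * g⁻¹ →
      (x • v = v ↔ y • w = w))
    (hcyc : ∀ (v : V) (g : G),
      (∀ x y : N, (y : G) = g * (x : G) * g⁻¹ → (x • v = v ↔ y • v = v)) →
      C ↥(Sv N v ⊔ Subgroup.zpowers g))
    (hedge : ∀ u v : V, T.Adj u v → FRP (Ev N u v) ∧ ∀ x ∈ Ev N u v, IsOfFinOrder x → x = 1)
    (hdet : ∀ (g : G) (u v : V), T.Adj u v → ∀ x : ↥(N ⊔ Subgroup.zpowers g),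
      (x : G) ∈ Ev N u v → x ≠ 1 →
      ∃ (P : Type) (_ : Group P) (f : ↥(N ⊔ Subgroup.zpowers g) →* P), C P ∧
        ∀ m : ℕ, 0 < m → f x ^ m = 1 → x ^ m ∉
          ⁅(Sv N u).subgroupOf (N ⊔ Subgroup.zpowers g) ⊓ f.ker,
            (Sv N u).subgroupOf (N ⊔ Subgroup.zpowers g) ⊓ f.ker⁆) : C G :=
  t_kde t_frp t_eak t_eau (t_kdmB (t_trv t_tfr) t_kqd) C hC hM hF G V N T hT hact hinv hperm hQ hcyc
    hfin hedge hdet

end Pool.Agent.Results.MP_551055_al.ElementwiseDetectedKernels
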